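import Pool.Agent.H29.BH.Targets1
import Pool.Agent.H92.RC.ID
import Pool.Agent.H87.HK.YC

/-!
# (NV) norms of the scaled lattice points
-/

set_option autoImplicit false

open NumberField NumberField.InfinitePlace NumberField.Units
  NumberField.Units.dirichletUnitTheorem MeasureTheory Set Filter Complex
open scoped nonZeroDivisors ENNReal

namespace Pool.Agent.H48.BH

open Pool.Agent.H29.BH
open Pool.Agent.H25.HK Pool.Agent.H23.LB Pool.Agent.H23.LC Pool.Agent.H29.DW
open Pool.Agent.H28.RC (Rep ft idl)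

variable {K : Type} [Field K] [NumberField K]

theorem aN_pos {L : FI K} (hL : L ≠ 0) : 0 < (FractionalIdeal.absNorm L : ℝ) := by
  have h1 : 0 ≤ FractionalIdeal.absNorm L := FractionalIdeal.absNorm_nonneg L
  have h2 : FractionalIdeal.absNorm L ≠ 0 := by
    rw [ne_eq, FractionalIdeal.absNorm_eq_zero_iff]
    exact hL
  exact_mod_cast lt_of_le_of_ne h1 (Ne.symm h2)

theorem nv_eq (y : InfinitePlace K → ℝ) (x : K) :
    nv y x = |((Algebra.norm ℚ x : ℚ) : ℝ)| * Real.exp ((∑ v, (v.mult : ℝ) * y v) / 2) := by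
  have h1 : ∀ v : InfinitePlace K, ‖sy y x v‖ ^ v.mult =
      v x ^ v.mult * Real.exp ((v.mult : ℝ) * (y v / 2)) := by
    intro v
    unfold sy
    rw [norm_mul, Complex.norm_real, Real.norm_of_nonneg (Real.exp_pos _).le, mul_pow,
      ← Real.exp_nat_mul, norm_embedding_eq]
  unfold nv
  rw [Finset.prod_congr rfl (fun v _ => h1 v), Finset.prod_mul_distrib,
    InfinitePlace.prod_eq_abs_norm, ← Real.exp_sum]
  congr 1
  · push_cast
    rfl
  · congr 1
    rw [Finset.sum_div]
    exact Finset.sum_congr rfl (fun v _ => by ring)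

theorem pf_K_NV : K_NV := by
  intro K _ _ L y hL
  have hid := Pool.Agent.H92.RC.pf_ID K L hL
  obtain ⟨hid1, -, -, hid4, -⟩ := hid
  have hN := aN_pos hL
  have hbt : 0 < bt L y := by
    unfold bt
    have := Real.exp_pos ((∑ v, (v.mult : ℝ) * y v) / 2)
    positivity
  have h2 : ∀ x ∈ L, nv y x * bt L y = Nf K (idl K L x) := by
    intro x hx
    have h1 := congrArg FractionalIdeal.absNorm (hid1 x hx)
    rw [map_mul, FractionalIdeal.coeIdeal_absNorm, FractionalIdeal.absNorm_span_singleton] at h1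
    have h3 : (Ideal.absNorm (idl K L x) : ℝ) * (FractionalIdeal.absNorm L : ℝ) =
        |((Algebra.norm ℚ x : ℚ) : ℝ)| := by
      exact_mod_cast h1
    have he := (Real.exp_pos ((∑ v, (v.mult : ℝ) * y v) / 2)).ne'
    rw [nv_eq, ← h3]
    unfold bt
    have hN' := hN.ne'
    show _ = (Ideal.absNorm (idl K L x) : ℝ)
    field_simp
  refine ⟨hbt, h2, ?_, ?_, ?_, ?_⟩
  · intro x hx hx0
    rw [h2 x hx]
    have h3 : idl K L x ≠ ⊥ := fun h => hx0 ((hid4 x hx).mp h)
    have h4 : 1 ≤ Ideal.absNorm (idl K L x) := by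
      rw [Nat.one_le_iff_ne_zero, ne_eq, Ideal.absNorm_eq_zero_iff]
      exact h3
    show (1 : ℝ) ≤ (Ideal.absNorm (idl K L x) : ℝ)
    exact_mod_cast h4
  · intro x
    unfold nv sy
    refine Finset.prod_congr rfl (fun v _ => ?_)
    rw [map_neg, neg_mul, norm_neg]
  · intro j hj
    have hjN : 0 < Nf K j := by
      have h4 : Ideal.absNorm j ≠ 0 := by
        rw [ne_eq, Ideal.absNorm_eq_zero_iff]
        exact hj
      show (0 : ℝ) < (Ideal.absNorm j : ℝ)
      exact_mod_cast Nat.pos_of_ne_zero h4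
    have hjc : ((FractionalIdeal.absNorm (j : FI K) : ℚ) : ℝ) = Nf K j := by
      rw [FractionalIdeal.coeIdeal_absNorm]
      simp [Nf]
    have he := (Real.exp_pos ((∑ v, (v.mult : ℝ) * y v) / 2)).ne'
    have hN' := hN.ne'
    have hj' := hjN.ne'
    constructor
    · unfold bt
      rw [map_mul]
      push_cast
      rw [hjc]
      field_simp
    · unfold bt
      rw [map_mul, map_inv₀]
      push_cast
      rw [hjc]
      field_simp
  · intro τ z
    unfold bt yM
    rw [(Pool.Agent.H87.HK.yc_main K).1]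
    rw [show 2 * (τ - Real.log (FractionalIdeal.absNorm L : ℝ)) / 2 =
      τ - Real.log (FractionalIdeal.absNorm L : ℝ) by ring, Real.exp_sub, Real.exp_log hN,
      Real.exp_neg]
    have hN' := hN.ne'
    field_simp

end Pool.Agent.H48.BH
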