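import Pool.Agent.H29.BH.Targets2

/-!
# (S1) the kernel of the unfolding
-/

set_option autoImplicit false

open NumberField NumberField.InfinitePlace NumberField.Units
  NumberField.Units.dirichletUnitTheorem MeasureTheory Set Filter Complex
open scoped nonZeroDivisors ENNReal

namespace Pool.Agent.H48.BH

open Pool.Agent.H29.BH
open Pool.Agent.H25.HK Pool.Agent.H23.LB Pool.Agent.H23.LC Pool.Agent.H29.DW
open Pool.Agent.H28.RC (Rep ft idl)

theorem Gm_mul (k : ℤ) (μ : ℂ) {a b : ℂ} (ha : a ≠ 0) (hb : b ≠ 0) :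
    Gm k μ (a * b) = Gm k μ a * Gm k μ b := by
  have ha' : ‖a‖ ≠ 0 := norm_ne_zero_iff.mpr ha
  have hb' : ‖b‖ ≠ 0 := norm_ne_zero_iff.mpr hb
  unfold Gm
  rw [norm_mul, Real.log_mul ha' hb']
  have h1 : a * b / (((‖a‖ * ‖b‖ : ℝ)) : ℂ) = (a / ((‖a‖ : ℝ) : ℂ)) * (b / ((‖b‖ : ℝ) : ℂ)) := by
    push_cast
    rw [mul_div_mul_comm]
  rw [h1, mul_zpow]
  have h2 : cexp (μ * ((Real.log ‖a‖ + Real.log ‖b‖ : ℝ) : ℂ)) =
      cexp (μ * ((Real.log ‖a‖ : ℝ) : ℂ)) * cexp (μ * ((Real.log ‖b‖ : ℝ) : ℂ)) := by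
    rw [← Complex.exp_add]
    congr 1
    push_cast
    ring
  rw [h2]
  ring

theorem norm_Gm (k : ℤ) (μ : ℂ) {a : ℂ} (ha : a ≠ 0) :
    ‖Gm k μ a‖ = Real.exp (μ.re * Real.log ‖a‖) := by
  have ha' : ‖a‖ ≠ 0 := norm_ne_zero_iff.mpr ha
  unfold Gm
  rw [norm_mul, norm_zpow, norm_div, Complex.norm_real, norm_norm, div_self ha', one_zpow, one_mul,
    Complex.norm_exp]
  congr 1
  simp

theorem norm_Gm_le (k : ℤ) (μ : ℂ) (hμ : |μ.re| ≤ 8) {a : ℂ} (h1 : 1 ≤ ‖a‖) (h2 : ‖a‖ ≤ 2) :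
    ‖Gm k μ a‖ ≤ 2 ^ 8 := by
  have ha : a ≠ 0 := by
    intro h
    rw [h, norm_zero] at h1
    linarith
  rw [norm_Gm k μ ha]
  have hl0 : 0 ≤ Real.log ‖a‖ := Real.log_nonneg h1
  have hl2 : Real.log ‖a‖ ≤ Real.log 2 := Real.log_le_log (by linarith) h2
  have hl : μ.re * Real.log ‖a‖ ≤ 8 * Real.log 2 := by
    calc μ.re * Real.log ‖a‖ ≤ |μ.re| * Real.log ‖a‖ := by
          gcongr
          exact le_abs_self _
      _ ≤ 8 * Real.log 2 := by gcongr
  calc Real.exp (μ.re * Real.log ‖a‖) ≤ Real.exp (8 * Real.log 2) := Real.exp_le_exp.mpr hl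
    _ = 2 ^ 8 := by
      rw [show (8 : ℝ) * Real.log 2 = ((8 : ℕ) : ℝ) * Real.log 2 by norm_num, Real.exp_nat_mul,
        Real.exp_log (by norm_num)]

theorem mz_fin (r : Bool) (R : ℝ) : mz r (Metric.closedBall 0 R) < ⊤ := by
  unfold mz
  cases r
  · simp only [Bool.false_eq_true, if_false]
    exact measure_closedBall_lt_top
  · simp only [if_true]
    have hm : Measurable (fun x : ℝ => (x : ℂ)) := Complex.measurable_ofReal
    rw [Measure.map_apply hm Metric.isClosed_closedBall.measurableSet]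
    have : (fun x : ℝ => (x : ℂ)) ⁻¹' Metric.closedBall 0 R ⊆ Metric.closedBall 0 R := by
      intro x hx
      simpa using hx
    exact lt_of_le_of_lt (measure_mono this) measure_closedBall_lt_top

section

variable (K : Type) [Field K] [NumberField K]

/-- the local annulus -/
def An1 : Set ℂ := {p | 1 ≤ ‖p‖ ∧ ‖p‖ ≤ 2}

theorem meas_An1 : MeasurableSet An1 :=
  (measurableSet_le measurable_const measurable_norm).inter
    (measurableSet_le measurable_norm measurable_const)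

theorem AnK_eq : AnK K = Set.univ.pi (fun _ : InfinitePlace K => An1) := by
  ext p
  simp only [Set.mem_pi, Set.mem_univ, forall_true_left]
  exact Iff.rfl

theorem meas_AnK : MeasurableSet (AnK K) := by
  rw [AnK_eq]
  exact MeasurableSet.pi Set.countable_univ (fun _ _ => meas_An1)

theorem mK_AnK : mK K (AnK K) < ⊤ := by
  rw [AnK_eq, mK, Measure.pi_pi]
  refine ENNReal.prod_lt_top (fun v _ => ?_)
  refine lt_of_le_of_lt (measure_mono ?_) (mz_fin (rv v) 2)
  intro p hp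
  rw [Metric.mem_closedBall, dist_zero_right]
  exact hp.2

variable {K}

/-- the section of the kernel -/
def Ew (w : InfinitePlace K → ℂ) : Set (InfinitePlace K → ℂ) :=
  Set.univ.pi (fun v : InfinitePlace K => {p | 1 ≤ ‖p‖ ∧ ‖p‖ ≤ 2 ∧ ‖w v - p‖ ≤ 1 / 8})

theorem mem_Ew {w p : InfinitePlace K → ℂ} :
    p ∈ Ew w ↔ p ∈ AnK K ∧ ∀ v, ‖w v - p v‖ ≤ 1 / 8 := by
  unfold Ew
  simp only [Set.mem_pi, Set.mem_univ, forall_true_left]
  constructor
  · intro h
    exact ⟨fun v => ⟨(h v).1, (h v).2.1⟩, fun v => (h v).2.2⟩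
  · rintro ⟨h1, h2⟩ v
    exact ⟨(h1 v).1, (h1 v).2, h2 v⟩

theorem meas_Ew (w : InfinitePlace K → ℂ) : MeasurableSet (Ew w) := by
  refine MeasurableSet.pi Set.countable_univ (fun v _ => ?_)
  have h1 : MeasurableSet {p : ℂ | ‖w v - p‖ ≤ 1 / 8} :=
    measurableSet_le ((measurable_const.sub measurable_id).norm) measurable_const
  exact (measurableSet_le measurable_const measurable_norm).inter
    ((measurableSet_le measurable_norm measurable_const).inter h1)

theorem PK_eq (w : InfinitePlace K → ℂ) : PK w = (mK K).real (Ew w) := by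
  unfold PK Ew Measure.real
  rw [mK, Measure.pi_pi, ENNReal.toReal_prod]
  rfl

/-- the integrand for one lattice point -/
theorem integrand_eq {k : InfinitePlace K → ℤ} {μ : InfinitePlace K → ℂ}
    {w p : InfinitePlace K → ℂ} (hp : p ∈ AnK K) :
    GG k μ p * Ph0 k μ (fun v => w v - p v) p = (Ew w).indicator (fun _ => GG k μ w) p := by
  classical
  by_cases h : ∀ v, ‖w v - p v‖ ≤ 1 / 8
  · rw [Set.indicator_of_mem (mem_Ew.mpr ⟨hp, h⟩)]
    unfold Ph0 GG
    rw [if_pos h, ← Finset.prod_mul_distrib]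
    refine Finset.prod_congr rfl (fun v _ => ?_)
    have hp1 := (hp v).1
    have hp0 : p v ≠ 0 := by
      intro h0
      rw [h0, norm_zero] at hp1
      linarith
    have hw0 : w v ≠ 0 := by
      intro h0
      have := h v
      rw [h0, zero_sub, norm_neg] at this
      linarith
    have e : w v = p v * (1 + (w v - p v) / p v) := by
      field_simp
      ring
    have h1 : (1 + (w v - p v) / p v) ≠ 0 := by
      intro h0
      rw [h0, mul_zero] at e
      exact hw0 e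
    conv_rhs => rw [e]
    rw [Gm_mul _ _ hp0 h1]
  · rw [Set.indicator_of_notMem (fun hh => h (mem_Ew.mp hh).2)]
    unfold Ph0
    rw [if_neg h, mul_zero]

theorem norm_GG_le {k : InfinitePlace K → ℤ} {μ : InfinitePlace K → ℂ} (hμ : Qk k μ)
    {p : InfinitePlace K → ℂ} (hp : p ∈ AnK K) {n : ℕ} (hn : Module.finrank ℚ K = n) :
    ‖GG k μ p‖ ≤ (2 ^ 8) ^ n := by
  unfold GG
  rw [norm_prod]
  have h1 : ∏ v : InfinitePlace K, ‖Gm (k v) (μ v) (p v)‖ ≤
      ∏ _v : InfinitePlace K, (2 ^ 8 : ℝ) := by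
    refine Finset.prod_le_prod (fun v _ => norm_nonneg _) (fun v _ => ?_)
    exact norm_Gm_le _ _ (hμ.loc v).re (hp v).1 (hp v).2
  refine h1.trans ?_
  rw [Finset.prod_const]
  refine pow_le_pow_right₀ (by norm_num) ?_
  rw [← hn, ← InfinitePlace.sum_mult_eq]
  calc (Finset.univ : Finset (InfinitePlace K)).card = ∑ _v : InfinitePlace K, 1 := by simp
    _ ≤ ∑ v : InfinitePlace K, v.mult := by
      refine Finset.sum_le_sum (fun v _ => ?_)
      exact Nat.one_le_iff_ne_zero.mpr mult_ne_zero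

theorem Ew_empty {w : InfinitePlace K → ℂ} (h : (∃ v, 17 / 8 < ‖w v‖) ∨ ∃ v, w v = 0) :
    ∀ p ∈ AnK K, ¬ ∀ v, ‖w v - p v‖ ≤ 1 / 8 := by
  rintro p hp hall
  rcases h with ⟨v, hv⟩ | ⟨v, hv⟩
  · have h1 := hall v
    have h2 := (hp v).2
    have h3 : ‖w v‖ ≤ ‖w v - p v‖ + ‖p v‖ := by
      calc ‖w v‖ = ‖(w v - p v) + p v‖ := by rw [sub_add_cancel]
        _ ≤ _ := norm_add_le _ _
    linarith
  · have h1 := hall v
    have h2 := (hp v).1
    rw [hv, zero_sub, norm_neg] at h1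
    linarith

end

theorem pf_N_S1 (hNB : K_NB) : N_S1 := by
  intro n hn
  refine ⟨(2 ^ 8) ^ n, one_le_pow₀ (by norm_num), ?_⟩
  intro K _ _ hK f hf χ M y μ hM hμ
  classical
  obtain ⟨C₀, -, hC₀⟩ := hNB n hn
  have hfin := (hC₀ K hK M y (fun _ => 17 / 8) hM (fun _ => by norm_num)).1
  -- the finite set of the lattice points which matter
  have hfin' : {x : {x : K // x ∈ M} | x.1 ≠ 0 ∧ ∀ v, ‖sy y x.1 v‖ ≤ 17 / 8}.Finite := by
    refine Set.Finite.of_injOn (f := fun x : {x : K // x ∈ M} => x.1) ?_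
      (Subtype.val_injective.injOn) hfin
    rintro ⟨x, hx⟩ ⟨h1, h2⟩
    exact ⟨hx, h1, h2⟩
  set T : Finset {x : K // x ∈ M} := hfin'.toFinset with hT
  have hout : ∀ x : {x : K // x ∈ M}, x ∉ T →
      (∃ v, 17 / 8 < ‖sy y x.1 v‖) ∨ ∃ v, sy y x.1 v = 0 := by
    intro x hx
    rw [hT, Set.Finite.mem_toFinset] at hx
    by_cases h0 : x.1 = 0
    · right
      obtain ⟨v⟩ := (inferInstance : Nonempty (InfinitePlace K))
      refine ⟨v, ?_⟩
      unfold sy
      rw [h0, map_zero, zero_mul]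
    · left
      by_contra hcon
      push Not at hcon
      exact hx ⟨h0, hcon⟩
  have hPh0 : ∀ x : {x : K // x ∈ M}, x ∉ T → ∀ p ∈ AnK K,
      Ph0 χ.k μ (fun v => sy y x.1 v - p v) p = 0 := by
    intro x hx p hp
    unfold Ph0
    rw [if_neg (Ew_empty (hout x hx) p hp)]
  have hPK0 : ∀ x : {x : K // x ∈ M}, x ∉ T → PK (sy y x.1) = 0 := by
    intro x hx
    rw [PK_eq]
    have : Ew (sy y x.1) = ∅ := by
      rw [Set.eq_empty_iff_forall_notMem]
      intro p hp
      rw [mem_Ew] at hp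
      exact Ew_empty (hout x hx) p hp.1 hp.2
    rw [this]
    simp
  -- the terms as integrals
  have hterm : ∀ x : {x : K // x ∈ M}, cg χ M x *
      (((PK (sy y x.1) : ℝ) : ℂ) * GG χ.k μ (sy y x.1)) =
      ∫ p in AnK K, GG χ.k μ p * (cg χ M x * Ph0 χ.k μ (fun v => sy y x.1 v - p v) p) ∂mK K := by
    intro x
    have h1 : ∫ p in AnK K, GG χ.k μ p * (cg χ M x * Ph0 χ.k μ (fun v => sy y x.1 v - p v) p)
        ∂mK K = ∫ p in AnK K, cg χ M x * (Ew (sy y x.1)).indicator
          (fun _ => GG χ.k μ (sy y x.1)) p ∂mK K := by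
      refine setIntegral_congr_fun (meas_AnK K) (fun p hp => ?_)
      show GG χ.k μ p * (cg χ M x * Ph0 χ.k μ (fun v => sy y x.1 v - p v) p) = cg χ M x *
        (Ew (sy y x.1)).indicator (fun _ => GG χ.k μ (sy y x.1)) p
      rw [← integrand_eq hp]
      ring
    rw [h1, integral_const_mul, integral_indicator_const _ (meas_Ew _), PK_eq]
    congr 1
    have h2 : (Measure.restrict (mK K) (AnK K)).real (Ew (sy y x.1)) =
        (mK K).real (Ew (sy y x.1)) := by
      unfold Measure.real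
      rw [Measure.restrict_apply (meas_Ew _)]
      congr 2
      exact Set.inter_eq_left.mpr (fun p hp => (mem_Ew.mp hp).1)
    rw [h2, Complex.real_smul]
  have hint : ∀ x : {x : K // x ∈ M}, IntegrableOn (fun p => GG χ.k μ p *
      (cg χ M x * Ph0 χ.k μ (fun v => sy y x.1 v - p v) p)) (AnK K) (mK K) := by
    intro x
    have h1 : IntegrableOn (fun p => cg χ M x * (Ew (sy y x.1)).indicator
          (fun _ => GG χ.k μ (sy y x.1)) p) (AnK K) (mK K) := by
      refine Integrable.const_mul ?_ _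
      refine Integrable.indicator ?_ (meas_Ew _)
      rw [integrable_const_iff]
      right
      exact ⟨by rw [Measure.restrict_apply MeasurableSet.univ, Set.univ_inter]; exact mK_AnK K⟩
    refine h1.congr_fun (fun p hp => ?_) (meas_AnK K)
    show cg χ M x * (Ew (sy y x.1)).indicator (fun _ => GG χ.k μ (sy y x.1)) p =
      GG χ.k μ p * (cg χ M x * Ph0 χ.k μ (fun v => sy y x.1 v - p v) p)
    rw [← integrand_eq hp]
    ring
  have hSS : SS χ M y μ = ∫ p in AnK K, GG χ.k μ p * ∑ x ∈ T,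
      cg χ M x * Ph0 χ.k μ (fun v => sy y x.1 v - p v) p ∂mK K := by
    unfold SS
    rw [tsum_eq_sum (s := T) (fun x hx => by rw [hPK0 x hx]; simp)]
    rw [Finset.sum_congr rfl (fun x _ => hterm x), ← integral_finsetSum _ (fun x _ => hint x)]
    congr 1
    ext p
    rw [Finset.mul_sum]
  rw [ofReal_norm, hSS]
  refine (enorm_integral_le_lintegral_enorm _).trans ?_
  rw [← lintegral_const_mul' _ _ ENNReal.ofReal_ne_top]
  refine setLIntegral_mono' (meas_AnK K) (fun p hp => ?_)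
  rw [tsum_eq_sum (s := T) (fun x hx => by rw [hPh0 x hx p hp, mul_zero]), enorm_mul,
    ofReal_norm]
  gcongr
  rw [← ofReal_norm]
  exact ENNReal.ofReal_le_ofReal (norm_GG_le hμ hp hK)

end Pool.Agent.H48.BH
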