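import Pool.Agent.H29.BH.Targets3
import Pool.Agent.H16.DW.TT1
import Pool.Agent.H26.MV.Tors
import Pool.Agent.H60.BH.PTV
import Pool.Agent.H63.THC.HR
import Pool.Agent.H23.BG.TargetsP

/-!
# The second trivial bound for the sums over the annulus
-/

set_option autoImplicit false

open NumberField NumberField.InfinitePlace NumberField.Units
  NumberField.Units.dirichletUnitTheorem MeasureTheory Set Filter Complex
open scoped nonZeroDivisors ENNReal

namespace Pool.Agent.H48.BH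

open Pool.Agent.H25.HK Pool.Agent.H23.LB Pool.Agent.H23.LC Pool.Agent.H29.DW
open Pool.Agent.H28.RC (Rep ft idl)
open Pool.Agent.H29.BH
open Pool.Agent.H23.BG (Bx cb)
open Pool.Agent.H16.DW (th_cont swap_sum continuous_yM nM_pos sum_yM one_le_disc
  one_le_sqrt_disc)

namespace T2

section

open scoped Classical

variable {K : Type} [Field K] [NumberField K]

/-- the local bound -/
theorem Gm_le' {k : ℤ} {μ w : ℂ} (hμ : |μ.re| ≤ 8) (h1 : 7 / 8 ≤ ‖w‖) (h2 : ‖w‖ ≤ 17 / 8) :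
    ‖Gm k μ w‖ ≤ Real.exp 8 := Pool.Agent.H60.BH.Gm_le hμ h1 h2

/-- the shifted position -/
noncomputable def sh (y : InfinitePlace K → ℝ) : InfinitePlace K → ℝ :=
  fun v => y v - 2 * Real.log (17 / 8)

omit [NumberField K] in
theorem norm_sy' (y : InfinitePlace K → ℝ) (x : K) (v : InfinitePlace K) :
    ‖sy y x v‖ = v x * Real.exp (y v / 2) := by
  unfold sy
  rw [norm_mul, Complex.norm_real, Real.norm_of_nonneg (Real.exp_pos _).le]
  congr 1
  exact InfinitePlace.norm_embedding_eq v x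

omit [NumberField K] in
theorem sh_exp (y : InfinitePlace K → ℝ) (v : InfinitePlace K) :
    Real.exp (sh y v / 2) = Real.exp (y v / 2) * (8 / 17) := by
  unfold sh
  rw [show (y v - 2 * Real.log (17 / 8)) / 2 = y v / 2 - Real.log (17 / 8) by ring,
    Real.exp_sub, Real.exp_log (by norm_num)]
  norm_num
  ring

/-- the bound for one term -/
theorem term_le' {n : ℕ} (hn : Module.finrank ℚ K = n) (hPK : A_PK) {f : Ideal (𝓞 K)}
    (hf : f ≠ ⊥) (hCG : U_CG) (χ : HG K f) (M : FI K) (hM : M ≠ 0) (μ : InfinitePlace K → ℂ)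
    (hμ : Qk χ.k μ) (y : InfinitePlace K → ℝ) (x : K) (hx : x ∈ M) :
    ENNReal.ofReal ‖cg χ M x * (((PK (sy y x) : ℝ) : ℂ) * GG χ.k μ (sy y x))‖ ≤
      if x ∈ Bx K M (sh y) \ {0} then ENNReal.ofReal (Real.exp 8 ^ n) else 0 := by
  by_cases h0 : PK (sy y x) = 0
  · rw [h0]
    simp
  · have hv : ∀ v, pk (rv v) (sy y x v) ≠ 0 := by
      intro v hv
      refine h0 ?_
      unfold PK
      exact Finset.prod_eq_zero (Finset.mem_univ v) (by rw [hv]; rfl)
    have hw : ∀ v, 7 / 8 ≤ ‖sy y x v‖ ∧ ‖sy y x v‖ ≤ 17 / 8 :=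
      fun v => hPK.2.2.1 _ _ (hv v)
    have hx0 : x ≠ 0 := by
      rintro rfl
      obtain ⟨v⟩ := (inferInstance : Nonempty (InfinitePlace K))
      have := (hw v).1
      unfold sy at this
      simp at this
      norm_num at this
    have hmem : x ∈ Bx K M (sh y) \ {0} := by
      refine ⟨⟨hx, fun v => ?_⟩, hx0⟩
      have h1 := (hw v).2
      rw [norm_sy'] at h1
      rw [sh_exp]
      linarith
    rw [if_pos hmem]
    refine ENNReal.ofReal_le_ofReal ?_
    have hc := (hCG K f χ M hf hM).2.1 x hx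
    have hPK1 : ‖((PK (sy y x) : ℝ) : ℂ)‖ ≤ 1 := by
      rw [Complex.norm_real]
      unfold PK
      rw [Real.norm_of_nonneg (Finset.prod_nonneg fun v _ => ENNReal.toReal_nonneg)]
      refine Finset.prod_le_one (fun v _ => ENNReal.toReal_nonneg) fun v _ => ?_
      have h1 := hPK.2.1 (rv v) (sy y x v)
      exact ENNReal.toReal_le_of_le_ofReal zero_le_one (by rwa [ENNReal.ofReal_one])
    have hGG : ‖GG χ.k μ (sy y x)‖ ≤ Real.exp 8 ^ n := by
      unfold GG
      rw [norm_prod]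
      calc ∏ v, ‖Gm (χ.k v) (μ v) (sy y x v)‖ ≤ ∏ _v : InfinitePlace K, Real.exp 8 :=
            Finset.prod_le_prod (fun v _ => norm_nonneg _) fun v _ =>
              Gm_le' (hμ.loc v).re (hw v).1 (hw v).2
        _ = Real.exp 8 ^ Fintype.card (InfinitePlace K) := by
            rw [Finset.prod_const, Finset.card_univ]
        _ ≤ Real.exp 8 ^ n := pow_le_pow_right₀ (Real.one_le_exp (by norm_num))
            (card_places_le hn)
    rw [norm_mul, norm_mul]
    calc ‖cg χ M x‖ * (‖((PK (sy y x) : ℝ) : ℂ)‖ * ‖GG χ.k μ (sy y x)‖)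
        ≤ 1 * (1 * Real.exp 8 ^ n) := by gcongr
      _ = Real.exp 8 ^ n := by ring

/-- the bound for one position -/
theorem SS_le {n : ℕ} (hn : Module.finrank ℚ K = n) (hPK : A_PK) {f : Ideal (𝓞 K)}
    (hf : f ≠ ⊥) (hCG : U_CG) (χ : HG K f) (M : FI K) (hM : M ≠ 0) (μ : InfinitePlace K → ℂ)
    (hμ : Qk χ.k μ) (y : InfinitePlace K → ℝ) {C : ℝ}
    (hB : (Bx K M (sh y)).Finite) (hC : cb K M (sh y) - 1 ≤ C * (th K M (sh y) - 1)) :
    ENNReal.ofReal ‖SS χ M y μ‖ ≤
      ENNReal.ofReal (Real.exp 8 ^ n) * ENNReal.ofReal (C * (th K M (sh y) - 1)) := by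
  have h0 : (0 : K) ∈ Bx K M (sh y) := by
    refine ⟨FractionalIdeal.zero_mem M, fun v => ?_⟩
    rw [map_zero, zero_mul]
    exact zero_le_one
  have hF : (Bx K M (sh y) \ {0}).Finite := hB.subset sdiff_subset
  have hcard : ((hF.toFinset.card : ℕ) : ℝ) = cb K M (sh y) - 1 := by
    unfold cb
    have h1 : hF.toFinset.card = (Bx K M (sh y) \ {0}).ncard :=
      (Set.ncard_eq_toFinset_card _ hF).symm
    have h2 : (Bx K M (sh y) \ {0}).ncard = (Bx K M (sh y)).ncard - 1 :=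
      Set.ncard_sdiff_singleton_of_mem h0
    have h3 : 1 ≤ (Bx K M (sh y)).ncard := (Set.ncard_pos hB).2 ⟨0, h0⟩
    rw [h1, h2, Nat.cast_sub h3, Nat.cast_one]
  calc ENNReal.ofReal ‖SS χ M y μ‖ ≤
        ∑' x : {x : K // x ∈ M}, ‖cg χ M x * (((PK (sy y x.1) : ℝ) : ℂ) *
          GG χ.k μ (sy y x.1))‖ₑ := by
        rw [ofReal_norm]
        unfold SS
        exact enorm_tsum_le_tsum_enorm
    _ ≤ ∑' x : {x : K // x ∈ M}, (fun x : K => if x ∈ Bx K M (sh y) \ {0} then
          ENNReal.ofReal (Real.exp 8 ^ n) else 0) x.1 := by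
        refine ENNReal.tsum_le_tsum fun x => ?_
        rw [← ofReal_norm]
        exact term_le' hn hPK hf hCG χ M hM μ hμ y x.1 x.2
    _ ≤ ∑' x : K, (if x ∈ Bx K M (sh y) \ {0} then
          ENNReal.ofReal (Real.exp 8 ^ n) else 0) :=
        ENNReal.tsum_comp_le_tsum_of_injective Subtype.val_injective _
    _ = ∑ x ∈ hF.toFinset, (if x ∈ Bx K M (sh y) \ {0} then
          ENNReal.ofReal (Real.exp 8 ^ n) else 0) := by
        refine tsum_eq_sum fun x hx => ?_
        rw [if_neg]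
        intro h
        exact hx (hF.mem_toFinset.2 h)
    _ = (hF.toFinset.card : ℝ≥0∞) * ENNReal.ofReal (Real.exp 8 ^ n) := by
        rw [Finset.sum_congr rfl (g := fun _ => ENNReal.ofReal (Real.exp 8 ^ n))]
        · rw [Finset.sum_const, nsmul_eq_mul]
        · intro x hx
          rw [if_pos (hF.mem_toFinset.1 hx)]
    _ ≤ _ := by
        rw [mul_comm]
        gcongr
        rw [← ENNReal.ofReal_natCast, hcard]
        exact ENNReal.ofReal_le_ofReal hC

/-- the shift of the norm variable -/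
theorem sh_yM (hYC : T_YC) {n : ℕ} (hn0 : 0 < n) (hn : Module.finrank ℚ K = n) (M : FI K) (τ : ℝ)
    (z : logSpace K) : sh (yM K M τ z) = yM K M (τ - n * Real.log (17 / 8)) z := by
  have h := (hYC K).2.2.2.1
  have hn' : (n : ℝ) ≠ 0 := by exact_mod_cast hn0.ne'
  funext v
  unfold sh yM
  rw [h _ z v, h (τ - n * Real.log (17 / 8) - _) z v, hn]
  field_simp
  ring

/-- the inversion of the theta function -/
theorem th_inv' (hTH : T_TH) (hDU : T_DU) (hYC : T_YC) {M : FI K} (hM : M ≠ 0) (τ : ℝ)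
    (z : logSpace K) :
    th K M (yM K M τ z) = Real.exp (-τ) / Real.sqrt |(discr K : ℝ)| *
      th K (du K M) (yM K (du K M) (-τ - Real.log |(discr K : ℝ)|) (-z)) := by
  obtain ⟨hd0, -, -, hp, hN⟩ := hDU K M hM
  have h0 := (hTH K M hM (yM K M τ z)).2
  have hsum := sum_yM M τ z
  have hd := one_le_disc (K := K)
  have hdn : 0 < (FractionalIdeal.absNorm (du K M) : ℝ) := nM_pos hd0
  have e1 : -(yM K M τ z) = yM K (du K M) (-τ - Real.log |(discr K : ℝ)|) (-z) := by
    have h1 : -τ - Real.log |(discr K : ℝ)| - Real.log (FractionalIdeal.absNorm (du K M) : ℝ) =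
        -(τ - Real.log (FractionalIdeal.absNorm M : ℝ)) := by
      have h2 : Real.log (FractionalIdeal.absNorm (du K M) : ℝ) +
          Real.log (FractionalIdeal.absNorm M : ℝ) + Real.log |(discr K : ℝ)| = 0 := by
        rw [← Real.log_mul hdn.ne' hp.ne', ← Real.log_mul (by positivity) (by positivity), hN,
          Real.log_one]
      linarith
    funext v
    unfold yM
    rw [h1, (hYC K).2.1]
  rw [h0, e1]
  congr 1
  rw [hsum, show -(2 * (τ - Real.log (FractionalIdeal.absNorm M : ℝ))) / 2 =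
    -τ + Real.log (FractionalIdeal.absNorm M : ℝ) by ring, Real.exp_add, Real.exp_log hp]
  unfold cv
  have h3 : 0 < Real.sqrt |(discr K : ℝ)| := Real.sqrt_pos.2 (by linarith)
  field_simp

/-- the theta function on the space of the units -/
noncomputable def gz (N : FI K) (t : ℝ) (z : logSpace K) : ℝ≥0∞ :=
  ENNReal.ofReal (th K N (yM K N t z) - 1)

theorem th_contM (hTH : T_TH) (N : FI K) (hN : N ≠ 0) :
    Continuous (fun p : logSpace K × ℝ => th K N (yM K N p.2 p.1)) := by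
  have h := th_cont hTH N N hN 0
  simpa using h

theorem refl_gz (hTH : T_TH) (hUI : T_UI) (hZN : U_ZN) (N : FI K) (hN : N ≠ 0) (t : ℝ) :
    ∫⁻ z in Fd K, gz N t (-z) = ∫⁻ z in Fd K, gz N t z := by
  refine hZN K (gz N t) ?_ ?_
  · have h0 : Continuous (fun z : logSpace K => ((z, t) : logSpace K × ℝ)) := by fun_prop
    have h1 := ((th_contM hTH N hN).comp h0).measurable
    exact (h1.sub_const 1).ennreal_ofReal
  · intro z l hl
    obtain ⟨u, hu⟩ : ∃ u : (𝓞 K)ˣ, logEmbedding K (Additive.ofMul u) = l := by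
      obtain ⟨w, _, hw⟩ := hl
      exact ⟨w.toMul, hw⟩
    unfold gz yM
    rw [← hu, (hUI K N _ z u).2]

end

end T2

open T2

open scoped Classical in
/-- (T2) the second trivial bound. -/
theorem pf_R_T2 (hCB : Pool.Agent.H23.BG.P_CB) (hCT : V_CT) (hC1 : R_C1) (hRR : T_RR)
    (hTH : T_TH) (hDU : T_DU) (hYC : T_YC) (hUI : T_UI) (hZN : U_ZN) (hPK : A_PK) (hCG : U_CG) :
    R_T2 := by
  intro n hn0 κ hκ hκ1
  obtain ⟨Cb, hCb1, hCb⟩ := hCB n hn0
  obtain ⟨C1, hC11, hC1'⟩ := hC1 n hn0 κ hκ hκ1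
  obtain ⟨C2, hC2, hCT'⟩ := hCT n hn0 κ hκ hκ1
  obtain ⟨s, hs⟩ : ∃ s : ℝ, s = n * Real.log (17 / 8) := ⟨_, rfl⟩
  have hs0 : 0 ≤ s := by
    rw [hs]
    exact mul_nonneg (Nat.cast_nonneg n) (Real.log_nonneg (by norm_num))
  obtain ⟨E, hE⟩ : ∃ E : ℝ, E = Real.exp 8 ^ n * Cb := ⟨_, rfl⟩
  have hE0 : 0 ≤ E := by
    rw [hE]
    positivity
  obtain ⟨W, hW⟩ : ∃ W : ℝ, W = (((2 * n) ^ (n + 2) : ℕ) : ℝ) := ⟨_, rfl⟩
  have hW0 : 0 ≤ W := by
    rw [hW]
    positivity
  refine ⟨max 1 (E * (Real.exp s * C1 + C2 * W * Real.exp 1)), le_max_left _ _,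
    fun K _ _ hn f hf χ ι _ M hM μ τ₁ X hμ hX hX1 => ?_⟩
  have hd := one_le_disc (K := K)
  have hsd := one_le_sqrt_disc (K := K)
  obtain ⟨d, hdd⟩ : ∃ d : ℝ, d = |(discr K : ℝ)| := ⟨_, rfl⟩
  rw [← hdd] at hd hsd ⊢
  have hdd' := hdd.symm
  have hd0 : 0 < d := by linarith
  have hsd0 : 0 < Real.sqrt d := by linarith
  obtain ⟨hR, hhR⟩ : ∃ h : ℝ, h = classNumber K * regulator K := ⟨_, rfl⟩
  have hhR0 : 0 ≤ hR := by
    rw [hhR]
    exact mul_nonneg (Nat.cast_nonneg _) (regulator_pos K).le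
  rw [← hhR]
  have hdu0 : ∀ c, du K (M c) ≠ 0 := fun c => (hDU K (M c) (hM.1 c)).1
  have hMdu : Reps K (fun c => du K (M c)) := (hRR K ι M hM).2.1
  -- the bound for one position
  have hpt : ∀ c z τ, ENNReal.ofReal ‖SS χ (M c) (yM K (M c) τ z) μ‖ ≤
      ENNReal.ofReal E * (ENNReal.ofReal (Real.exp (-(τ - s)) / Real.sqrt d) +
        ENNReal.ofReal (Real.exp (-(τ - s)) / Real.sqrt d) *
          gz (du K (M c)) (-(τ - s) - Real.log d) (-z)) := by
    intro c z τ
    have hM0 := hM.1 c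
    obtain ⟨b1, b2, b3, -⟩ := hCb K hn (M c) (sh (yM K (M c) τ z)) hM0
    refine (SS_le hn hPK hf hCG χ (M c) hM0 μ hμ _ b1 b3).trans ?_
    rw [sh_yM hYC hn0 hn, ← hs, th_inv' hTH hDU hYC hM0, hdd', hE,
      ENNReal.ofReal_mul (by positivity : (0 : ℝ) ≤ Real.exp 8 ^ n), mul_assoc]
    refine mul_le_mul_right ?_ _
    rw [ENNReal.ofReal_mul (by linarith : 0 ≤ Cb)]
    refine mul_le_mul_right ?_ _
    unfold gz
    obtain ⟨V, hV⟩ : ∃ V : ℝ, V = Real.exp (-(τ - s)) / Real.sqrt d := ⟨_, rfl⟩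
    have hV0 : 0 ≤ V := by
      rw [hV]
      positivity
    rw [← hV, ← ENNReal.ofReal_mul hV0]
    refine le_trans ?_ (ENNReal.ofReal_add_le)
    refine ENNReal.ofReal_le_ofReal ?_
    have : V + V * (th K (du K (M c)) (yM K (du K (M c)) (-(τ - s) - Real.log d) (-z)) - 1) =
      V * th K (du K (M c)) (yM K (du K (M c)) (-(τ - s) - Real.log d) (-z)) := by ring
    rw [this]
    linarith
  -- the mean value of the dual theta function
  have hdual : ∀ τ ∈ Icc τ₁ (τ₁ + 1), ∑ c, ∫⁻ z in Fd K,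
      ENNReal.ofReal (Real.exp (-(τ - s)) / Real.sqrt d) *
        gz (du K (M c)) (-(τ - s) - Real.log d) (-z) ≤
      ENNReal.ofReal (C2 * W * Real.exp 1 * (d ^ κ * Real.sqrt d)) := by
    intro τ hτ
    obtain ⟨V, hV⟩ : ∃ V : ℝ, V = Real.exp (-(τ - s)) / Real.sqrt d := ⟨_, rfl⟩
    have hV0 : 0 < V := by
      rw [hV]
      positivity
    rw [← hV]
    have e1 : ∀ c, ∫⁻ z in Fd K, ENNReal.ofReal V *
        gz (du K (M c)) (-(τ - s) - Real.log d) (-z) =
        ENNReal.ofReal V * ∫⁻ z in Fd K, gz (du K (M c)) (-(τ - s) - Real.log d) z := by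
      intro c
      rw [lintegral_const_mul' _ _ ENNReal.ofReal_ne_top, refl_gz hTH hUI hZN _ (hdu0 c)]
    rw [Finset.sum_congr rfl fun c _ => e1 c, ← Finset.mul_sum]
    have h1 := (hCT' K hn ι (fun c => du K (M c)) hMdu ⊤ ⊤ 0 0 (-(τ - s) - Real.log d)
      top_ne_bot top_ne_bot).2
    have h2 : VV K ⊤ 0 (-(τ - s) - Real.log d) = V⁻¹ := by
      unfold VV
      rw [Pool.Agent.H16.DW.Nf_top', hV, hdd']
      simp only [Pi.zero_apply, mul_zero, Finset.sum_const_zero, zero_div, sub_zero, mul_one]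
      rw [show -(-(τ - s) - Real.log d) = (τ - s) + Real.log d by ring, Real.exp_add,
        Real.exp_log hd0, inv_div, Real.exp_neg]
      rw [div_inv_eq_mul, div_eq_iff hsd0.ne']
      have : Real.sqrt d * Real.sqrt d = d := Real.mul_self_sqrt hd0.le
      calc Real.exp (τ - s) * d = Real.exp (τ - s) * (Real.sqrt d * Real.sqrt d) := by rw [this]
        _ = _ := by ring
    rw [h2] at h1
    have h3 : ∑ c, ∫⁻ z in Fd K, gz (du K (M c)) (-(τ - s) - Real.log d) z ≤
        ENNReal.ofReal (C2 * (cw K * |(discr K : ℝ)| ^ ((1 + κ) / 2)) * V⁻¹ ^ (1 + κ)) := by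
      refine le_trans (le_of_eq ?_) h1
      refine Finset.sum_congr rfl fun c _ => ?_
      refine lintegral_congr fun z => ?_
      unfold gz
      have e2 : (((⊤ : Ideal (𝓞 K)) : FI K)) = 1 :=
        FractionalIdeal.coeIdeal_top (𝓞 K)⁰
      rw [e2, one_mul]
      simp
    refine (mul_le_mul_right h3 _).trans ?_
    rw [← ENNReal.ofReal_mul hV0.le]
    refine ENNReal.ofReal_le_ofReal ?_
    have hcw : cw K ≤ W := by
      rw [hW]
      exact (Pool.Agent.H63.THC.cw_le K).trans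
        (by exact_mod_cast Pool.Agent.H26.MV.torsion_bound n K hn)
    have hcw0 : 0 ≤ cw K := by
      unfold cw
      positivity
    have hVi : V⁻¹ ≤ Real.exp 1 * Real.sqrt d := by
      rw [hV, inv_div, Real.exp_neg, div_inv_eq_mul, mul_comm]
      refine mul_le_mul_of_nonneg_right ?_ hsd0.le
      refine Real.exp_le_exp.2 ?_
      have h5 : Real.exp (-τ₁) ≥ 1 := by
        rw [← hX]
        exact hX1
      have h6 : 0 ≤ -τ₁ := by
        by_contra h
        have h7 := Real.exp_lt_exp.2 (not_le.1 h)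
        rw [Real.exp_zero] at h7
        linarith
      linarith [hτ.2]
    have hVi0 : 0 < V⁻¹ := inv_pos.2 hV0
    rw [hdd']
    calc V * (C2 * (cw K * d ^ ((1 + κ) / 2)) * V⁻¹ ^ (1 + κ))
        = C2 * (cw K * d ^ ((1 + κ) / 2)) * V⁻¹ ^ κ := by
          rw [Real.rpow_add hVi0, Real.rpow_one]
          field_simp
      _ ≤ C2 * (W * d ^ ((1 + κ) / 2)) * (Real.exp 1 * Real.sqrt d) ^ κ := by
          gcongr
      _ ≤ C2 * (W * d ^ ((1 + κ) / 2)) * (Real.exp 1 * Real.sqrt d ^ κ) := by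
          rw [Real.mul_rpow (Real.exp_pos _).le hsd0.le]
          gcongr
          calc Real.exp 1 ^ κ ≤ Real.exp 1 ^ (1 : ℝ) :=
                Real.rpow_le_rpow_of_exponent_le (Real.one_le_exp (by norm_num)) hκ1
            _ = Real.exp 1 := Real.rpow_one _
      _ = C2 * W * Real.exp 1 * (d ^ κ * Real.sqrt d) := by
          have h7 : d ^ ((1 + κ) / 2) * Real.sqrt d ^ κ = d ^ κ * Real.sqrt d := by
            rw [Real.sqrt_eq_rpow, ← Real.rpow_mul hd0.le, ← Real.rpow_add hd0,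
              ← Real.rpow_add hd0]
            congr 1
            ring
          calc C2 * (W * d ^ ((1 + κ) / 2)) * (Real.exp 1 * Real.sqrt d ^ κ)
              = C2 * W * Real.exp 1 * (d ^ ((1 + κ) / 2) * Real.sqrt d ^ κ) := by ring
            _ = _ := by rw [h7]
  -- measurability
  have hGm : ∀ c, Measurable (fun p : logSpace K × ℝ =>
      ENNReal.ofReal (Real.exp (-(p.2 - s)) / Real.sqrt d) *
        gz (du K (M c)) (-(p.2 - s) - Real.log d) (-p.1)) := by
    intro c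
    have h0 : Continuous (fun p : logSpace K × ℝ =>
        ((-p.1, -(p.2 - s) - Real.log d) : logSpace K × ℝ)) := by fun_prop
    have h1 := ((th_contM hTH _ (hdu0 c)).comp h0).measurable
    have h2 : Continuous (fun p : logSpace K × ℝ => Real.exp (-(p.2 - s)) / Real.sqrt d) := by
      fun_prop
    exact h2.measurable.ennreal_ofReal.mul (h1.sub_const 1).ennreal_ofReal
  have hsw := swap_sum (fun c (p : logSpace K × ℝ) =>
      ENNReal.ofReal (Real.exp (-(p.2 - s)) / Real.sqrt d) *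
        gz (du K (M c)) (-(p.2 - s) - Real.log d) (-p.1)) hGm τ₁ (τ₁ + 1) _ hdual
  rw [show τ₁ + 1 - τ₁ = 1 by ring, ENNReal.ofReal_one, mul_one] at hsw
  have h1 := (hC1' K hn ι M hM τ₁).1
  rw [← hhR] at h1
  -- conclusion
  have hfirst : ∑ c : ι, ∫⁻ _z in Fd K, ∫⁻ _τ in Icc τ₁ (τ₁ + 1),
      ENNReal.ofReal (X * Real.exp s / Real.sqrt d) ≤
      ENNReal.ofReal (X * Real.exp s / Real.sqrt d * (C1 * hR)) := by
    rw [ENNReal.ofReal_mul (by positivity)]
    have h2 : ∑ c : ι, ∫⁻ _z in Fd K, ∫⁻ _τ in Icc τ₁ (τ₁ + 1),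
        ENNReal.ofReal (X * Real.exp s / Real.sqrt d) =
        ENNReal.ofReal (X * Real.exp s / Real.sqrt d) *
          ∑ c : ι, ∫⁻ _z in Fd K, ∫⁻ _τ in Icc τ₁ (τ₁ + 1), 1 := by
      rw [Finset.mul_sum]
      refine Finset.sum_congr rfl fun c _ => ?_
      rw [← lintegral_const_mul' _ _ ENNReal.ofReal_ne_top]
      refine lintegral_congr fun z => ?_
      rw [← lintegral_const_mul' _ _ ENNReal.ofReal_ne_top, mul_one]
    rw [h2]
    refine mul_le_mul_right (le_trans ?_ h1) _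
    unfold pint
    refine Finset.sum_le_sum fun c _ => lintegral_mono fun z => ?_
    exact lintegral_mono_set (Icc_subset_Icc_right (by linarith))
  have hmono : ∀ c : ι, ∫⁻ z in Fd K, ∫⁻ τ in Icc τ₁ (τ₁ + 1),
      ENNReal.ofReal ‖SS χ (M c) (yM K (M c) τ z) μ‖ ≤
      ENNReal.ofReal E * ((∫⁻ _z in Fd K, ∫⁻ _τ in Icc τ₁ (τ₁ + 1),
        ENNReal.ofReal (X * Real.exp s / Real.sqrt d)) +
        ∫⁻ z in Fd K, ∫⁻ τ in Icc τ₁ (τ₁ + 1),
          ENNReal.ofReal (Real.exp (-(τ - s)) / Real.sqrt d) *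
            gz (du K (M c)) (-(τ - s) - Real.log d) (-z)) := by
    intro c
    have h3 : ∀ z : logSpace K, ∫⁻ τ in Icc τ₁ (τ₁ + 1),
        ENNReal.ofReal ‖SS χ (M c) (yM K (M c) τ z) μ‖ ≤
        ENNReal.ofReal E * ((∫⁻ _τ in Icc τ₁ (τ₁ + 1),
          ENNReal.ofReal (X * Real.exp s / Real.sqrt d)) +
          ∫⁻ τ in Icc τ₁ (τ₁ + 1), ENNReal.ofReal (Real.exp (-(τ - s)) / Real.sqrt d) *
            gz (du K (M c)) (-(τ - s) - Real.log d) (-z)) := by
      intro z
      rw [← lintegral_add_left measurable_const,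
        ← lintegral_const_mul' _ _ ENNReal.ofReal_ne_top]
      refine setLIntegral_mono' measurableSet_Icc fun τ hτ => ?_
      refine (hpt c z τ).trans ?_
      gcongr
      rw [hX, ← Real.exp_add]
      exact Real.exp_le_exp.2 (by linarith [hτ.1])
    refine (lintegral_mono h3).trans ?_
    rw [lintegral_const_mul' _ _ ENNReal.ofReal_ne_top, lintegral_add_left measurable_const]
  unfold pint
  calc ∑ c, ∫⁻ z in Fd K, ∫⁻ τ in Icc τ₁ (τ₁ + 1),
        ENNReal.ofReal ‖SS χ (M c) (yM K (M c) τ z) μ‖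
      ≤ ∑ c, ENNReal.ofReal E * ((∫⁻ _z in Fd K, ∫⁻ _τ in Icc τ₁ (τ₁ + 1),
        ENNReal.ofReal (X * Real.exp s / Real.sqrt d)) +
        ∫⁻ z in Fd K, ∫⁻ τ in Icc τ₁ (τ₁ + 1),
          ENNReal.ofReal (Real.exp (-(τ - s)) / Real.sqrt d) *
            gz (du K (M c)) (-(τ - s) - Real.log d) (-z)) :=
        Finset.sum_le_sum fun c _ => hmono c
    _ = ENNReal.ofReal E * ((∑ c : ι, ∫⁻ _z in Fd K, ∫⁻ _τ in Icc τ₁ (τ₁ + 1),
        ENNReal.ofReal (X * Real.exp s / Real.sqrt d)) +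
        ∑ c, ∫⁻ z in Fd K, ∫⁻ τ in Icc τ₁ (τ₁ + 1),
          ENNReal.ofReal (Real.exp (-(τ - s)) / Real.sqrt d) *
            gz (du K (M c)) (-(τ - s) - Real.log d) (-z)) := by
        rw [← Finset.mul_sum, Finset.sum_add_distrib]
    _ ≤ ENNReal.ofReal E * (ENNReal.ofReal (X * Real.exp s / Real.sqrt d * (C1 * hR)) +
        ENNReal.ofReal (C2 * W * Real.exp 1 * (d ^ κ * Real.sqrt d))) := by
        gcongr
    _ = ENNReal.ofReal (E * (X * Real.exp s / Real.sqrt d * (C1 * hR) +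
        C2 * W * Real.exp 1 * (d ^ κ * Real.sqrt d))) := by
        rw [← ENNReal.ofReal_add (by positivity) (by positivity), ← ENNReal.ofReal_mul hE0]
    _ ≤ _ := by
        refine ENNReal.ofReal_le_ofReal ?_
        have hdX : 1 ≤ d * X := by nlinarith
        have k1 : 1 ≤ (d * X) ^ κ := Real.one_le_rpow hdX hκ.le
        have k2 : d ^ κ ≤ (d * X) ^ κ := by
          refine Real.rpow_le_rpow hd0.le ?_ hκ.le
          nlinarith
        have hX0 : 0 < X := by linarith
        calc E * (X * Real.exp s / Real.sqrt d * (C1 * hR) +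
              C2 * W * Real.exp 1 * (d ^ κ * Real.sqrt d))
            = E * (Real.exp s * C1 * (X * hR / Real.sqrt d) * 1 +
              C2 * W * Real.exp 1 * (d ^ κ * Real.sqrt d)) := by ring
          _ ≤ E * (Real.exp s * C1 * (X * hR / Real.sqrt d) * (d * X) ^ κ +
              C2 * W * Real.exp 1 * ((d * X) ^ κ * Real.sqrt d)) := by
              gcongr
          _ ≤ E * (Real.exp s * C1 * (X * hR / Real.sqrt d + Real.sqrt d) * (d * X) ^ κ +
              C2 * W * Real.exp 1 * ((d * X) ^ κ * (X * hR / Real.sqrt d + Real.sqrt d))) := by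
              have k3 : 0 ≤ X * hR / Real.sqrt d := by positivity
              gcongr
              · linarith
              · linarith
          _ = E * (Real.exp s * C1 + C2 * W * Real.exp 1) * (d * X) ^ κ *
              (X * hR / Real.sqrt d + Real.sqrt d) := by ring
          _ ≤ _ := by
              gcongr
              exact le_max_right _ _

end Pool.Agent.H48.BH
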